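import Pool.Agent.D0H45.QE.Two
import Pool.Agent.D0H43.Q4.Stm5

/-!
# The exact proportion for the bordered matrix of the class `b = 1`
-/

set_option autoImplicit false

open scoped Classical

namespace Pool.Agent.D0H45.QE

open Finset Filter
open H385 (ZI im1 nrm)
open Pool.Agent.Y699 hiding XX kk CC
open Pool.Agent.Y703.CQ (c2)
open Pool.Agent.D0H45.QK
open Pool.Agent.H304R2.EC.A1 (prim prim_mul)
open Pool.Agent.D0H43.Q4 (MB hO xl sl cst dO)

/-- the elements of the index set -/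
def oo {Δ : ZI} : Option (univ : Finset {π : ZI // π ∈ PD Δ}) → Option ZI
  | none => none
  | some j => some j.1.1

/-- the row of a prime -/
theorem row_some {Δ : ZI} (hΔ : Δ ≠ 0) (t t' : ZI → ZMod 2) (c : ZMod 2) (x : Option ZI → ZMod 2)
    (i : (univ : Finset {π : ZI // π ∈ PD Δ})) :
    (MB (fun π => t (fam Δ π) + t' (fam Δ π)) (fun π => t (fam Δ π)) c (em (fam Δ)) univ).mulVec
      (fun o => x (oo o)) (some i) =
      ∑ ρ ∈ PD Δ, nq i.1.1 ρ * (x (some ρ) + x (some i.1.1)) + t i.1.1 * (x none + x (some i.1.1)) +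
        t' i.1.1 * x (some i.1.1) := by
  have hPF := fam_PF hΔ
  have h0 : ∀ F : ZI → ZMod 2, ∑ j : (univ : Finset {π : ZI // π ∈ PD Δ}), F j.1.1 =
      ∑ ρ ∈ PD Δ, F ρ := by
    intro F
    rw [Finset.sum_coe_sort univ (fun j : {π : ZI // π ∈ PD Δ} => F j.1), Finset.sum_coe_sort (PD Δ) F]
  have hs : nq i.1.1 i.1.1 = 0 := nq_self _ (hPF.pp i.1)
  have hd : ∑ l ∈ (univ : Finset {π : ZI // π ∈ PD Δ}).erase i.1, em (fam Δ) l i.1 =
      ∑ ρ ∈ PD Δ, nq i.1.1 ρ := by
    rw [← Finset.sum_coe_sort (PD Δ) (fun ρ => nq i.1.1 ρ),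
      ← Finset.add_sum_erase univ _ (Finset.mem_univ i.1), hs, zero_add]
    rfl
  unfold Matrix.mulVec dotProduct
  rw [Fintype.sum_option]
  have h2 : ∀ j : (univ : Finset {π : ZI // π ∈ PD Δ}),
      (MB (fun π => t (fam Δ π) + t' (fam Δ π)) (fun π => t (fam Δ π)) c (em (fam Δ)) univ)
        (some i) (some j) * x (oo (some j)) =
      nq i.1.1 j.1.1 * x (some j.1.1) +
        (if i = j then (t i.1.1 + t' i.1.1 + ∑ ρ ∈ PD Δ, nq i.1.1 ρ) * x (some i.1.1) else 0) := by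
    intro j
    unfold MB
    by_cases hij : i = j
    · subst hij
      simp only [if_true]
      rw [hd, hs, zero_mul, zero_add]
      rfl
    · simp only [if_neg hij, add_zero]
      rfl
  rw [Finset.sum_congr rfl fun j _ => h2 j, Finset.sum_add_distrib, Finset.sum_ite_eq,
    if_pos (Finset.mem_univ _), h0 fun ρ => nq i.1.1 ρ * x (some ρ)]
  simp only [mul_add, Finset.sum_add_distrib]
  rw [← Finset.sum_mul]
  have e1 : MB (fun π => t (fam Δ π) + t' (fam Δ π)) (fun π => t (fam Δ π)) c (em (fam Δ)) univ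
      (some i) none * x (oo (Δ := Δ) none) =
      t i.1.1 * x none := rfl
  rw [e1]
  ring

/-- the row of the extra vertex -/
theorem row_none {Δ : ZI} (t h : ZI → ZMod 2) (c : ZMod 2) (x : Option ZI → ZMod 2) :
    (MB (fun π => h (fam Δ π)) (fun π => t (fam Δ π)) c (em (fam Δ)) univ).mulVec
      (fun o => x (oo o)) none =
      ∑ ρ ∈ PD Δ, t ρ * x (some ρ) + c * x none := by
  have h0 : ∀ F : ZI → ZMod 2, ∑ j : (univ : Finset {π : ZI // π ∈ PD Δ}), F j.1.1 =
      ∑ ρ ∈ PD Δ, F ρ := by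
    intro F
    rw [Finset.sum_coe_sort univ (fun j : {π : ZI // π ∈ PD Δ} => F j.1), Finset.sum_coe_sort (PD Δ) F]
  unfold Matrix.mulVec dotProduct
  rw [Fintype.sum_option, ← h0 fun ρ => t ρ * x (some ρ), add_comm]
  rfl

theorem lh2_some (t t' : ZI → ZMod 2) (c : ZMod 2) (S : Finset ZI) (x : Option ZI → ZMod 2) (π : ZI) :
    lh (s2 t) (t2 t' c) (on S) x (some π) =
      ∑ ρ ∈ S, nq π ρ * (x (some ρ) + x (some π)) + t π * (x none + x (some π)) +
        t' π * x (some π) := by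
  unfold lh
  rw [sum_on]
  show t π * (x none + x (some π)) + ∑ ρ ∈ S, nq π ρ * (x (some ρ) + x (some π)) +
    t' π * x (some π) = _
  ring

theorem lh2_none (t t' : ZI → ZMod 2) (c : ZMod 2) (S : Finset ZI) (x : Option ZI → ZMod 2) :
    lh (s2 t) (t2 t' c) (on S) x none =
      ∑ ρ ∈ S, t ρ * x (some ρ) + (c + ∑ ρ ∈ S, t ρ) * x none := by
  unfold lh
  rw [sum_on]
  show 0 * (x none + x none) + ∑ ρ ∈ S, t ρ * (x (some ρ) + x none) + c * x none = _
  simp only [mul_add, Finset.sum_add_distrib]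
  rw [← Finset.sum_mul]
  ring

/-- **The good elements and the determinant.** -/
theorem gd2_iff {Δ : ZI} (hΔ : Δ ≠ 0) (t t' : ZI → ZMod 2) (c : ZMod 2) : Gd2 t t' c (PD Δ) ↔
    (MB (fun π => t (fam Δ π) + t' (fam Δ π)) (fun π => t (fam Δ π)) (c + ∑ ρ ∈ PD Δ, t ρ)
      (em (fam Δ)) univ).det ≠ 0 := by
  constructor
  · intro h h0
    obtain ⟨v, hv, hv0⟩ := Matrix.exists_mulVec_eq_zero_iff.2 h0
    set x : Option ZI → ZMod 2 := fun o => match o with
      | none => v none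
      | some n => if h : n ∈ PD Δ then v (some ⟨⟨n, h⟩, Finset.mem_univ _⟩) else 0 with hx
    have hxv : (fun o : Option (univ : Finset {π : ZI // π ∈ PD Δ}) =>
        x (oo o)) = v := by
      funext o
      rcases o with _ | q
      · rfl
      · exact dif_pos q.1.2
    apply hv
    have hsol : Sol (s2 t) (t2 t' c) (on (PD Δ)) x := by
      rintro (_ | q) hq
      · have h1 := row_none (Δ := Δ) t (fun π => t π + t' π) (c + ∑ ρ ∈ PD Δ, t ρ) x
        rw [hxv] at h1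
        have h2 := lh2_none t t' c (PD Δ) x
        rw [← h1] at h2
        refine h2.trans ?_
        exact congrFun hv0 none
      · have hq' : q ∈ PD Δ := mem_on.1 hq
        have h1 := row_some hΔ t t' (c + ∑ ρ ∈ PD Δ, t ρ) x ⟨⟨q, hq'⟩, Finset.mem_univ _⟩
        rw [hxv, hv0] at h1
        exact (lh2_some t t' c (PD Δ) x q).trans h1.symm
    funext o
    rw [← hxv]
    rcases o with _ | q
    · exact h x hsol none none_on
    · exact h x hsol (some q.1.1) (mem_on.2 q.1.2)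
  · intro h x hx p hp
    by_contra hc
    apply h
    refine Matrix.exists_mulVec_eq_zero_iff.1 ⟨fun o => x (oo o), fun h0 => ?_, ?_⟩
    · apply hc
      rcases p with _ | p
      · exact congrFun h0 none
      · exact congrFun h0 (some ⟨⟨p, mem_on.1 hp⟩, Finset.mem_univ _⟩)
    · funext o
      rcases o with _ | q
      · refine (row_none (Δ := Δ) t (fun π => t π + t' π) (c + ∑ ρ ∈ PD Δ, t ρ) x).trans ?_
        exact (lh2_none t t' c (PD Δ) x).symm.trans (hx none none_on)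
      · refine (row_some hΔ t t' (c + ∑ ρ ∈ PD Δ, t ρ) x q).trans ?_
        exact (lh2_some t t' c (PD Δ) x q.1.1).symm.trans (hx (some q.1.1) (mem_on.2 q.1.2))

/-- the character of `1 + i` -/
noncomputable def ψl (a : ZI) : ℝ := if (a.re + a.im - 1) / 4 % 2 = 0 then 1 else -1

theorem psil : Psi ψl 8 where
  two := ⟨3, ⟨⟨-2, 2⟩, by decide⟩⟩
  per := by
    intro a b h
    obtain ⟨c, hc⟩ := h
    have ha : a = b + 8 * c := by rw [← hc]; ring
    have e1 : a.re = b.re + 8 * c.re := by rw [ha]; simp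
    have e2 : a.im = b.im + 8 * c.im := by rw [ha]; simp
    have h1 : (a.re + a.im - 1) / 4 % 2 = (b.re + b.im - 1) / 4 % 2 := by
      rw [e1, e2]
      omega
    unfold ψl
    rw [h1]
  val := by
    intro a _
    unfold ψl
    split_ifs
    · exact Or.inl rfl
    · exact Or.inr rfl
  mul := by
    intro a b ha hb
    obtain ⟨h1, h2⟩ := ha
    obtain ⟨h3, h4⟩ := hb
    obtain ⟨k, hk⟩ : ∃ k, a.im = 2 * k := ⟨a.im / 2, by omega⟩
    obtain ⟨l, hl⟩ : ∃ l, b.im = 2 * l := ⟨b.im / 2, by omega⟩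
    obtain ⟨m, hm⟩ : ∃ m, a.re + a.im = 1 + 4 * m := ⟨(a.re + a.im - 1) / 4, by omega⟩
    obtain ⟨n, hn⟩ : ∃ n, b.re + b.im = 1 + 4 * n := ⟨(b.re + b.im - 1) / 4, by omega⟩
    have e : (a * b).re + (a * b).im - 1 = 4 * (m + n + 4 * (m * n) - 2 * (k * l)) := by
      have e1 : (a * b).re = a.re * b.re - a.im * b.im := by
        rw [Zsqrtd.re_mul]; ring
      have e2 : (a * b).im = a.re * b.im + a.im * b.re := by
        rw [Zsqrtd.im_mul]
      have e3 : a.re = 1 + 4 * m - 2 * k := by omega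
      have e4 : b.re = 1 + 4 * n - 2 * l := by omega
      rw [e1, e2, e3, e4, hk, hl]
      ring
    unfold ψl
    rw [e]
    have e5 : (a.re + a.im - 1) / 4 = m := by omega
    have e6 : (b.re + b.im - 1) / 4 = n := by omega
    rw [e5, e6, Int.mul_ediv_cancel_left _ (by norm_num)]
    have e7 : (m + n + 4 * (m * n) - 2 * (k * l)) % 2 = (m + n) % 2 := by omega
    rw [e7]
    rcases Int.emod_two_eq_zero_or_one m with hm | hm <;>
      rcases Int.emod_two_eq_zero_or_one n with hn | hn <;>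
      · rw [hm, hn, Int.add_emod, hm, hn]
        norm_num
  nt := by
    refine ⟨⟨5, 0⟩, ⟨by decide, by decide⟩, ?_⟩
    unfold ψl
    norm_num

/-- the product of two characters -/
theorem Psi_mul {ψ ψ' : ZI → ℝ} {q q' : ZI} (h : Psi ψ q) (h' : Psi ψ' q')
    (hn : ∃ c, prim c ∧ ψ c * ψ' c = -1) : Psi (fun a => ψ a * ψ' a) (q * q') where
  two := by
    obtain ⟨k, hk⟩ := h.two
    obtain ⟨l, hl⟩ := h'.two
    exact ⟨k + l, by rw [pow_add]; exact mul_dvd_mul hk hl⟩
  per := by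
    intro a b hab
    rw [h.per a b ((dvd_mul_right _ _).trans hab), h'.per a b ((dvd_mul_left _ _).trans hab)]
  val := by
    intro a ha
    rcases h.val a ha with h1 | h1 <;> rcases h'.val a ha with h2 | h2 <;> rw [h1, h2] <;> norm_num
  mul := by
    intro a b ha hb
    rw [h.mul a b ha hb, h'.mul a b ha hb]
    ring
  nt := hn

/-- the character of the potential of the second extra vertex -/
noncomputable def ψs (σ : ℕ) (a : ZI) : ℝ := if σ % 2 = 0 then ψl a * ψ8 a else ψl a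

theorem psis (σ : ℕ) : ∃ q, Psi (ψs σ) q := by
  rcases Nat.mod_two_eq_zero_or_one σ with h | h
  · have e : ψs σ = fun a => ψl a * ψ8 a := by
      funext a
      unfold ψs
      rw [if_pos h]
    rw [e]
    refine ⟨_, Psi_mul psil psi8 ⟨⟨5, 0⟩, ⟨by decide, by decide⟩, ?_⟩⟩
    unfold ψl ψ8
    norm_num [Zsqrtd.norm_def]
  · have e : ψs σ = ψl := by
      funext a
      unfold ψs
      rw [if_neg (by omega)]
    rw [e]
    exact ⟨_, psil⟩

theorem psis8 (σ : ℕ) : ∃ q, Psi (fun a => ψ8 a * ψs σ a) q := by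
  obtain ⟨q, hq⟩ := psis σ
  refine ⟨_, Psi_mul psi8 hq ⟨⟨5, 0⟩, ⟨by decide, by decide⟩, ?_⟩⟩
  unfold ψs ψl ψ8
  split_ifs <;> norm_num [Zsqrtd.norm_def] at *

theorem tq_l {π : ZI} (hπ : prim π) : tq ψl π = (xl π : ZMod 2) := by
  obtain ⟨h1, h2⟩ := hπ
  obtain ⟨k, hk⟩ : ∃ k, π.im = 2 * k := ⟨π.im / 2, by omega⟩
  obtain ⟨m, hm⟩ : ∃ m, π.re + π.im = 1 + 4 * m := ⟨(π.re + π.im - 1) / 4, by omega⟩
  have e1 : (π.re + π.im - 1) / 4 = m := by omega
  have e2 : (π.re - π.im - π.im ^ 2 - 1) / 4 = m - k - k ^ 2 := by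
    have e3 : π.re = 1 + 4 * m - 2 * k := by omega
    have e4 : π.re - π.im - π.im ^ 2 - 1 = 4 * (m - k - k ^ 2) := by
      rw [e3, hk]
      ring
    rw [e4, Int.mul_ediv_cancel_left _ (by norm_num)]
  have e5 : (k ^ 2 + k) % 2 = 0 := by
    have : k ^ 2 + k = k * (k + 1) := by ring
    rw [this]
    exact Int.emod_eq_zero_of_dvd (Int.even_mul_succ_self k).two_dvd
  have e6 : (xl π : ZMod 2) = ((m : ℤ) : ZMod 2) := by
    unfold xl
    rw [e2]
    have h3 : 0 ≤ (m - k - k ^ 2) % 4 := Int.emod_nonneg _ (by norm_num)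
    have h4 : (((m - k - k ^ 2) % 4).toNat : ℤ) = (m - k - k ^ 2) % 4 := Int.toNat_of_nonneg h3
    have h5 : ((((m - k - k ^ 2) % 4).toNat : ℕ) : ZMod 2) =
        (((((m - k - k ^ 2) % 4).toNat : ℤ)) : ZMod 2) := by push_cast; rfl
    rw [h5, h4, ZMod.intCast_eq_intCast_iff_dvd_sub]
    omega
  rw [e6]
  unfold tq ψl
  rw [e1]
  rcases Int.emod_two_eq_zero_or_one m with h | h
  · rw [if_pos h]
    have : ((m : ℤ) : ZMod 2) = 0 := by
      rw [ZMod.intCast_zmod_eq_zero_iff_dvd]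
      exact Int.dvd_of_emod_eq_zero h
    rw [this]
    norm_num
  · rw [if_neg (show ¬ m % 2 = 0 by omega)]
    have : ((m : ℤ) : ZMod 2) = 1 := by
      rw [← Int.cast_one, ZMod.intCast_eq_intCast_iff_dvd_sub]
      omega
    rw [this]
    norm_num

theorem tq_8 (π : ZI) : tq ψ8 π = if π.norm % 8 = 5 then 1 else 0 := by
  unfold tq ψ8
  split_ifs with h1 h2 h2
  · rfl
  · norm_num at h2
  · norm_num at h2
  · rfl

theorem tq_s (σ : ℕ) {π : ZI} (hπ : prim π) :
    tq ψ8 π + tq (ψs σ) π = (xl π : ZMod 2) + σ * tq ψ8 π := by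
  have h2 : ∀ a : ZMod 2, a + a = 0 := by decide
  rcases Nat.mod_two_eq_zero_or_one σ with h | h
  · have e : ψs σ = fun a => ψl a * ψ8 a := by
      funext a
      unfold ψs
      rw [if_pos h]
    have e2 : (σ : ZMod 2) = 0 := by
      rw [ZMod.natCast_eq_zero_iff]
      exact Nat.dvd_of_mod_eq_zero h
    rw [e, ← tq_mul psil psi8 hπ, tq_l hπ, e2, zero_mul, add_zero, add_comm (xl π : ZMod 2),
      ← add_assoc, h2, zero_add]
  · have e : ψs σ = ψl := by
      funext a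
      unfold ψs
      rw [if_neg (by omega)]
    have e2 : (σ : ZMod 2) = 1 := by
      rw [← Nat.cast_one, ZMod.natCast_eq_natCast_iff]
      exact h
    rw [e, tq_l hπ, e2, one_mul, add_comm]

/-- the sum of the symbols over the primes -/
theorem sum_tq {ψ : ZI → ℝ} {q : ZI} (h : Psi ψ q) {Δ : ZI} (hΔ : PS Δ) :
    ∑ π ∈ PD Δ, tq ψ π = tq ψ Δ := by
  have h1 : ∀ S : Finset ZI, (∀ π ∈ S, PP π) →
      ∑ π ∈ S, tq ψ π = tq ψ (∏ π ∈ S, π) ∧ prim (∏ π ∈ S, π) := by
    intro S hS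
    refine ⟨?_, (PS_prod hS).1.prm⟩
    induction S using Finset.induction_on with
    | empty =>
      rw [sum_empty, prod_empty]
      unfold tq
      rw [h.one]
      norm_num
    | insert a T ha ih =>
      have h2 := ih fun π hπ => hS π (mem_insert_of_mem hπ)
      have h3 : prim (∏ π ∈ T, π) := (PS_prod fun π hπ => hS π (mem_insert_of_mem hπ)).1.prm
      have h4 : prim a := (hS a (mem_insert_self _ _)).prm
      rw [sum_insert ha, prod_insert ha, h2]
      have h5 := h.mul a _ h4 h3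
      unfold tq
      rw [h5]
      have e11 : (1 : ZMod 2) + 1 = 0 := by decide
      rcases h.val a h4 with g1 | g1 <;> rcases h.val _ h3 with g2 | g2 <;> rw [g1, g2] <;>
        norm_num [e11]
  have h2 := (h1 (PD Δ) fun π hπ => ((mem_PD hΔ.ne).1 hπ).1).1
  rwa [hΔ.prod] at h2

/-- the good elements of a class -/
theorem gd2_dO (σ : ℕ) {Δ : ZI} (hΔ : PS Δ) :
    Gd2 (tq ψ8) (tq (ψs σ)) (1 + cst σ + tq ψ8 Δ) (PD Δ) ↔ dO σ Δ = 1 := by
  rw [gd2_iff hΔ.ne, sum_tq psi8 hΔ]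
  have hPF := fam_PF hΔ.ne
  have e1 : (fun π : {π : ZI // π ∈ PD Δ} => tq ψ8 (fam Δ π) + tq (ψs σ) (fam Δ π)) =
      hO σ (fam Δ) := by
    funext π
    rw [tq_s σ (hPF.pp π).prm, tq_8]
    rfl
  have e2 : (fun π : {π : ZI // π ∈ PD Δ} => tq ψ8 (fam Δ π)) = wt (fam Δ) := by
    funext π
    rw [tq_8]
    rfl
  have e3 : 1 + cst σ + tq ψ8 Δ + tq ψ8 Δ = 1 + cst σ := by
    have : ∀ a b : ZMod 2, a + b + b = a := by decide
    exact this _ _
  rw [e1, e2, e3]
  have key : ∀ a : ZMod 2, a ≠ 0 ↔ a = 1 := by decide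
  exact key _

/-- the class of the elements whose norm is `1` (`j = 0`) or `5` (`j = 1`) modulo `8` -/
def RJ (j : ZMod 2) : Set (ZMod 16) := if j = 0 then {1, 9} else {5, 13}

theorem low_RJ (j : ZMod 2) : Low (LN16 (RJ j)) := by
  unfold RJ
  split_ifs
  · exact lowN (r := 1) (Or.inl rfl) (by simp)
  · exact lowN (r := 5) (Or.inr (Or.inl rfl)) (by simp)

theorem mem_RJ {Δ : ZI} (hΔ : PS Δ) (j : ZMod 2) : ClD (LN16 (RJ j)) Δ ↔ tq ψ8 Δ = j := by
  have h1 : Δ.norm % 8 = 1 ∨ Δ.norm % 8 = 5 := prim_norm_four hΔ.prm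
  have h2 : ((nrm Δ : ℕ) : ℤ) = Δ.norm := nrm_cast Δ
  rw [clN hΔ, tq_8]
  have h3 : ∀ r : ℕ, ((nrm Δ : ℕ) : ZMod 16) = ((r : ℕ) : ZMod 16) ↔ nrm Δ % 16 = r % 16 :=
    fun r => ZMod.natCast_eq_natCast_iff _ _ _
  have g1 := h3 1
  have g5 := h3 5
  have g9 := h3 9
  have g13 := h3 13
  push_cast at g1 g5 g9 g13
  have key : ∀ a : ZMod 2, a = 0 ∨ a = 1 := by decide
  unfold RJ
  rcases key j with rfl | rfl
  · rw [if_pos rfl]
    simp only [Set.mem_insert_iff, Set.mem_singleton_iff]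
    rw [g1, g9]
    rcases h1 with h | h
    · rw [if_neg (by omega)]
      simp only [iff_true]
      omega
    · rw [if_pos h]
      simp only [one_ne_zero, iff_false]
      omega
  · rw [if_neg one_ne_zero]
    simp only [Set.mem_insert_iff, Set.mem_singleton_iff]
    rw [g5, g13]
    rcases h1 with h | h
    · rw [if_neg (by omega)]
      simp only [zero_ne_one, iff_false]
      omega
    · rw [if_pos h]
      simp only [iff_true]
      omega

theorem avg2 {A A' B B' : ℕ → ℝ} {c : ℝ} (hc : 0 < c) (hB : ∀ X, 0 ≤ B X) (hB' : ∀ X, 0 ≤ B' X)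
    (h : Tendsto (fun X => A X / B X) atTop (nhds c))
    (h' : Tendsto (fun X => A' X / B' X) atTop (nhds c)) :
    Tendsto (fun X => (A X + A' X) / (B X + B' X)) atTop (nhds c) := by
  rw [Metric.tendsto_nhds] at h h' ⊢
  intro ε hε
  filter_upwards [h (min ε c) (lt_min hε hc), h' (min ε c) (lt_min hε hc)] with X h1 h2
  rw [Real.dist_eq] at h1 h2 ⊢
  have p1 : 0 < B X := by
    refine lt_of_le_of_ne (hB X) fun h0 => ?_
    rw [← h0, div_zero, zero_sub, abs_neg, abs_of_pos hc] at h1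
    exact absurd (h1.trans_le (min_le_right _ _)) (lt_irrefl _)
  have p2 : 0 < B' X := by
    refine lt_of_le_of_ne (hB' X) fun h0 => ?_
    rw [← h0, div_zero, zero_sub, abs_neg, abs_of_pos hc] at h2
    exact absurd (h2.trans_le (min_le_right _ _)) (lt_irrefl _)
  have q1 := h1.trans_le (min_le_left _ _)
  have q2 := h2.trans_le (min_le_left _ _)
  rw [abs_lt] at q1 q2 ⊢
  rw [lt_sub_iff_add_lt, sub_lt_iff_lt_add, lt_div_iff₀ p1, div_lt_iff₀ p1] at q1
  rw [lt_sub_iff_add_lt, sub_lt_iff_lt_add, lt_div_iff₀ p2, div_lt_iff₀ p2] at q2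
  rw [lt_sub_iff_add_lt, sub_lt_iff_lt_add, lt_div_iff₀ (by linarith), div_lt_iff₀ (by linarith)]
  constructor <;> nlinarith [q1.1, q1.2, q2.1, q2.2]

/-- **D3-DEN: the exact proportion.** -/
theorem deno : Pool.Agent.D0H43.Q4.S_DENO := by
  intro σ
  rw [← c2_eq]
  obtain ⟨q', hq'⟩ := psis σ
  obtain ⟨r, hr⟩ := psis8 σ
  have hc : 0 < c2 := Pool.Agent.Y948.CQ.t_C2.2.1
  have h : ∀ j : ZMod 2, Tendsto (fun X : ℕ => (((SB X).filter fun Δ => ClD (LN16 (RJ j)) Δ ∧
      dO σ Δ = 1).card : ℝ) / (((SB X).filter (ClD (LN16 (RJ j)))).card : ℝ)) atTop (nhds c2) := by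
    intro j
    refine (den2 (LN16 (RJ j)) (low_RJ j) psi8 hq' hr (1 + cst σ + j)).congr fun X => ?_
    congr 2
    refine fcc fun Δ hΔ => and_congr_right fun h1 => ?_
    have hPS := (mem_SB.1 hΔ).2
    rw [← gd2_dO σ hPS, (mem_RJ hPS j).1 h1]
  refine (avg2 hc (fun X => Nat.cast_nonneg _) (fun X => Nat.cast_nonneg _) (h 0) (h 1)).congr
    fun X => ?_
  have key : ∀ a : ZMod 2, a = 0 ∨ a = 1 := by decide
  have e : ∀ Q : ZI → Prop, ((SB X).filter Q).card =
      ((SB X).filter fun Δ => ClD (LN16 (RJ 0)) Δ ∧ Q Δ).card +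
      ((SB X).filter fun Δ => ClD (LN16 (RJ 1)) Δ ∧ Q Δ).card := by
    intro Q
    rw [← card_union_of_disjoint]
    · congr 1
      ext Δ
      simp only [mem_union, mem_filter]
      constructor
      · rintro ⟨h1, h2⟩
        have hPS := (mem_SB.1 h1).2
        rcases key (tq ψ8 Δ) with h3 | h3
        · exact Or.inl ⟨h1, (mem_RJ hPS 0).2 h3, h2⟩
        · exact Or.inr ⟨h1, (mem_RJ hPS 1).2 h3, h2⟩
      · rintro (⟨h1, -, h2⟩ | ⟨h1, -, h2⟩)
        · exact ⟨h1, h2⟩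
        · exact ⟨h1, h2⟩
    · rw [Finset.disjoint_left]
      intro Δ h1 h2
      rw [mem_filter] at h1 h2
      have hPS := (mem_SB.1 h1.1).2
      have h3 := (mem_RJ hPS 0).1 h1.2.1
      have h4 := (mem_RJ hPS 1).1 h2.2.1
      rw [h3] at h4
      exact absurd h4 (by decide)
  have e1 := e fun Δ => dO σ Δ = 1
  have e2 := e fun _ => True
  rw [filter_true] at e2
  simp only [and_true] at e2
  refine congrArg₂ (fun a b : ℝ => a / b) ?_ ?_
  · rw [← Nat.cast_add]
    exact congrArg _ ((congrArg₂ (fun a b : ℕ => a + b) (fcc fun _ _ => Iff.rfl)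
      (fcc fun _ _ => Iff.rfl)).trans (e1.symm.trans (fcc fun _ _ => Iff.rfl)))
  · rw [← Nat.cast_add]
    exact congrArg _ ((congrArg₂ (fun a b : ℕ => a + b) (fcc fun _ _ => Iff.rfl)
      (fcc fun _ _ => Iff.rfl)).trans e2.symm)

end Pool.Agent.D0H45.QE
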