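import Pool.Agent.D0H45.QE.Asy

/-!
# The exact proportion over `ℤ[i]` for the Laplacian with two extra vertices

The first extra vertex is an additional element of the small part (`Option ZI`), the second one is the
extra vertex of the box theorem.
-/

set_option autoImplicit false

open scoped Classical

namespace Pool.Agent.D0H45.QE

open Finset Filter
open H385 (ZI im1 nrm)
open Pool.Agent.Y699 hiding XX kk CC
open Pool.Agent.Y703.CX (jj XX eL zz kk eL_tendsto logX_eq rpow_eL HH NN ev_eL one_le_exp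
  HH_ge HH_le HH_pos kk_ge kk_le X_pos one_add_log lin_le zz_ge zz_pos)
open Pool.Agent.Y703.CQ (sg prs c2 S_LA S_C2)
open Pool.Agent.D0H45.Q4 (Sml sml_of sml_add)
open Pool.Agent.D0H45.QK
open Pool.Agent.D0H45.QK.EQ (HB)
open Pool.Agent.H304R2.EC.A1 (prim)

/-- the symbols with the first extra vertex as an element -/
noncomputable def s2 (t : ZI → ZMod 2) : Option ZI → Option ZI → ZMod 2
  | some π, some ρ => nq π ρ
  | some π, none => t π
  | none, some ρ => t ρ
  | none, none => 0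

/-- the symbols with the second extra vertex -/
noncomputable def t2 (t' : ZI → ZMod 2) (c : ZMod 2) : Option ZI → ZMod 2
  | some π => t' π
  | none => c

/-- the elements that occur -/
def P2 : Option ZI → Prop
  | some π => PP π
  | none => True

/-- the image -/
noncomputable def im2 (S : Finset ZI) : Finset (Option ZI) := S.image some

/-- the set with the first extra vertex -/
noncomputable def on (S : Finset ZI) : Finset (Option ZI) := insert none (im2 S)

theorem mem_im2 {S : Finset ZI} {π : ZI} : (some π : Option ZI) ∈ im2 S ↔ π ∈ S := by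
  unfold im2
  rw [mem_image]
  constructor
  · rintro ⟨a, ha, h⟩
    rwa [← Option.some_inj.1 h]
  · exact fun h => ⟨π, h, rfl⟩

theorem none_im2 {S : Finset ZI} : (none : Option ZI) ∉ im2 S := by
  unfold im2
  rw [mem_image]
  rintro ⟨a, -, h⟩
  exact Option.some_ne_none a h

theorem mem_on {S : Finset ZI} {π : ZI} : (some π : Option ZI) ∈ on S ↔ π ∈ S := by
  unfold on
  rw [mem_insert]
  constructor
  · rintro (h | h)
    · exact absurd h (Option.some_ne_none π)
    · exact mem_im2.1 h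
  · exact fun h => Or.inr (mem_im2.2 h)

theorem none_on {S : Finset ZI} : (none : Option ZI) ∈ on S := mem_insert_self _ _

theorem card_on (S : Finset ZI) : (on S).card = S.card + 1 := by
  unfold on
  rw [card_insert_of_notMem none_im2]
  unfold im2
  rw [card_image_of_injective _ (Option.some_injective _)]

theorem sum_im2 (S : Finset ZI) (F : Option ZI → ZMod 2) :
    ∑ x ∈ im2 S, F x = ∑ π ∈ S, F (some π) := by
  unfold im2
  exact sum_image fun a _ b _ h => Option.some_inj.1 h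

theorem sum_on (S : Finset ZI) (F : Option ZI → ZMod 2) :
    ∑ x ∈ on S, F x = F none + ∑ π ∈ S, F (some π) := by
  unfold on
  rw [sum_insert none_im2, sum_im2]

theorem on_union (S T : Finset ZI) : on (S ∪ T) = on S ∪ im2 T := by
  unfold on im2
  rw [image_union, insert_union]

/-- the good sets -/
def Gd2 (t t' : ZI → ZMod 2) (c : ZMod 2) (S : Finset ZI) : Prop := Gd (s2 t) (t2 t' c) (on S)

/-- the nondegenerate labels -/
def Nd2 (t t' : ZI → ZMod 2) (c : ZMod 2) (S₀ S₁ : Finset ZI) : Prop :=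
  Nd (s2 t) (t2 t' c) (on S₀) (im2 S₁)

theorem s2_symm (t : ZI → ZMod 2) (a b : Option ZI) (ha : P2 a) (hb : P2 b) : s2 t a b = s2 t b a := by
  rcases a with _ | a <;> rcases b with _ | b
  · rfl
  · rfl
  · rfl
  · exact nq_symm a b ha hb

theorem s2_self (t : ZI → ZMod 2) (a : Option ZI) (ha : P2 a) : s2 t a a = 0 := by
  rcases a with _ | a
  · rfl
  · exact nq_self a ha

/-- the tuples -/
theorem pi_map {ι : Type} [Fintype ι] [DecidableEq ι] (C : ι → Finset ZI)
    (Q : (ι → Option ZI) → Prop) :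
    ((Fintype.piFinset fun i => im2 (C i)).filter Q).card =
      ((Fintype.piFinset C).filter fun p => Q fun i => some (p i)).card := by
  symm
  refine card_bij (fun p _ => fun i => some (p i)) ?_ ?_ ?_
  · intro p hp
    rw [mem_filter, Fintype.mem_piFinset] at hp ⊢
    exact ⟨fun i => mem_im2.2 (hp.1 i), hp.2⟩
  · intro p _ p' _ h
    funext i
    exact Option.some_inj.1 (congrFun h i)
  · intro p hp
    rw [mem_filter, Fintype.mem_piFinset] at hp
    have h1 : ∀ i, ∃ x ∈ C i, some x = p i := by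
      intro i
      have h2 := hp.1 i
      unfold im2 at h2
      rw [mem_image] at h2
      exact h2
    choose x hx1 hx2 using h1
    have h3 : (fun i => some (x i)) = p := funext hx2
    refine ⟨x, ?_, h3⟩
    rw [mem_filter, Fintype.mem_piFinset]
    exact ⟨hx1, by rw [h3]; exact hp.2⟩

theorem image_some {ι : Type} [Fintype ι] (p : ι → ZI) :
    univ.image (fun i => some (p i)) = im2 (univ.image p) := by
  unfold im2
  rw [image_image]
  rfl

theorem hb2 {ι : Type} [Fintype ι] {t : ZI → ZMod 2} {C : ι → Finset ZI} {X : ι → ℕ} {κ : ℝ}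
    (h : HB nq (univ : Finset ι) C X κ) : HB (s2 t) univ (fun i => im2 (C i)) X κ := by
  intro i l hil hi c d hc hd
  have h1 := h i l hil hi (fun π => c (some π)) (fun π => d (some π)) (fun _ => hc _) (fun _ => hd _)
  refine (le_of_eq ?_).trans h1
  congr 1
  unfold im2
  rw [sum_image fun a _ b _ h => Option.some_inj.1 h]
  refine sum_congr rfl fun x _ => ?_
  rw [sum_image fun a _ b _ h => Option.some_inj.1 h]
  rfl

theorem box_tr {A A' B B' : ℕ} (hA : A = A') (hB : B = B') {k R : ℝ}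
    (h : |(A : ℝ) - c2 * (B : ℝ)| ≤ k * (B : ℝ) + R) : |(A' : ℝ) - c2 * (B' : ℝ)| ≤ k * (B' : ℝ) + R := by
  subst hA
  subst hB
  exact h

/-- **The box theorem.** -/
theorem box2 (t t' : ZI → ZMod 2) (c : ZMod 2) : BoxH (Nd2 t t' c) (Gd2 t t' c) := by
  intro ι _ _ lo C X κ S₀ hκ hCX hHB hS₀ hC hdis hcard
  have hLA := Pool.Agent.Y219.CQ.t_LA Pool.Agent.Y839.CQ.t_SYM Pool.Agent.Y948.CQ.t_C2
  have h := box_inst (P := P2) (t := t2 t' c) (s2_symm t) (s2_self t) hLA ι lo
    (fun i => im2 (C i)) X κ (on S₀) hκ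
    (fun i => by
      unfold im2
      exact card_image_le.trans (hCX i)) (hb2 hHB)
    (by
      rintro (_ | u) hu
      · trivial
      · exact hS₀ u (mem_on.1 hu))
    (by
      rintro i (_ | p) hp
      · exact absurd hp none_im2
      · have h1 := hC i p (mem_im2.1 hp)
        exact ⟨h1.1, fun h2 => h1.2 (mem_on.1 h2)⟩)
    (by
      intro i l hil
      rw [Finset.disjoint_left]
      rintro (_ | p) hp hp'
      · exact absurd hp none_im2
      · exact Finset.disjoint_left.1 (hdis i l hil) (mem_im2.1 hp) (mem_im2.1 hp'))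
    (by rw [card_on]; omega)
  rw [card_on] at h
  refine box_tr ?_ ?_ h
  · refine (fcc fun _ _ => Iff.rfl).trans ((pi_map C fun p => Nd (s2 t) (t2 t' c) (on S₀)
      (univ.image p) ∧ Gd (s2 t) (t2 t' c) (on S₀ ∪ univ.image p)).trans (fcc fun p _ => ?_))
    rw [image_some, ← on_union]
    exact Iff.rfl
  · refine (fcc fun _ _ => Iff.rfl).trans ((pi_map C fun p => Nd (s2 t) (t2 t' c) (on S₀)
      (univ.image p)).trans (fcc fun p _ => ?_))
    rw [image_some]
    exact Iff.rfl

/-- degenerate labels -/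
theorem bad_or {t t' : ZI → ZMod 2} {c : ZMod 2} {S₀ S₁ : Finset ZI} (h : ¬ Nd2 t t' c S₀ S₁) :
    ¬ Nd nq t S₀ S₁ ∨ ¬ Nd nq t' S₀ S₁ ∨ ¬ Nd nq (fun π => t π + t' π) S₀ S₁ := by
  by_contra hc
  push Not at hc
  obtain ⟨h1, h2, h3⟩ := hc
  apply h
  intro w e hw
  have key : ∀ a : ZMod 2, a = 0 ∨ a = 1 := by decide
  have hsum : ∀ π, ∑ u ∈ on S₀, w u * s2 t (some π) u + e * t2 t' c (some π) =
      ∑ u ∈ S₀, w (some u) * nq π u + (w none * t π + e * t' π) := by
    intro π
    rw [sum_on]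
    show w none * t π + ∑ u ∈ S₀, w (some u) * nq π u + e * t' π = _
    ring
  have hfin : (∃ π ∈ S₁, ∑ u ∈ S₀, w (some u) * nq π u + (w none * t π + e * t' π) ≠ 0) →
      ∃ p ∈ im2 S₁, ∑ u ∈ on S₀, w u * s2 t p u + e * t2 t' c p ≠ 0 := by
    rintro ⟨π, hπ, h4⟩
    exact ⟨some π, mem_im2.2 hπ, by rw [hsum]; exact h4⟩
  apply hfin
  rcases key (w none) with ha | ha <;> rcases key e with he | he
  · have hu : ∃ u ∈ S₀, w (some u) ≠ 0 := by
      rcases hw with ⟨u, hu, hu0⟩ | hc
      · rcases u with _ | u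
        · exact absurd ha hu0
        · exact ⟨u, mem_on.1 hu, hu0⟩
      · exact absurd he hc
    obtain ⟨π, hπ, h4⟩ := h1 (fun u => w (some u)) 0 (Or.inl hu)
    refine ⟨π, hπ, ?_⟩
    rw [ha, he]
    simpa using h4
  · obtain ⟨π, hπ, h4⟩ := h2 (fun u => w (some u)) 1 (Or.inr one_ne_zero)
    refine ⟨π, hπ, ?_⟩
    rw [ha, he]
    simpa using h4
  · obtain ⟨π, hπ, h4⟩ := h1 (fun u => w (some u)) 1 (Or.inr one_ne_zero)
    refine ⟨π, hπ, ?_⟩
    rw [ha, he]
    simpa using h4
  · obtain ⟨π, hπ, h4⟩ := h3 (fun u => w (some u)) 1 (Or.inr one_ne_zero)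
    refine ⟨π, hπ, ?_⟩
    rw [ha, he]
    simpa using h4

theorem nd_congr {t t' : ZI → ZMod 2} {S₀ S₁ : Finset ZI} (h : ∀ π ∈ S₁, t π = t' π) :
    Nd nq t S₀ S₁ ↔ Nd nq t' S₀ S₁ := by
  unfold Nd
  refine forall_congr' fun w => forall_congr' fun c => imp_congr_right fun _ => ?_
  constructor
  · rintro ⟨p, hp, h1⟩
    exact ⟨p, hp, by rw [← h p hp]; exact h1⟩
  · rintro ⟨p, hp, h1⟩
    exact ⟨p, hp, by rw [h p hp]; exact h1⟩

/-- the sum of the symbols of two characters -/
theorem tq_mul {ψ ψ' : ZI → ℝ} {q q' : ZI} (h : Psi ψ q) (h' : Psi ψ' q') {π : ZI} (hπ : prim π) :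
    tq ψ π + tq ψ' π = tq (fun a => ψ a * ψ' a) π := by
  have e : (fun a => ψ a * ψ' a) π = ψ π * ψ' π := rfl
  have e11 : (1 : ZMod 2) + 1 = 0 := by decide
  unfold tq
  rw [e]
  rcases h.val π hπ with h1 | h1 <;> rcases h'.val π hπ with h2 | h2 <;> rw [h1, h2] <;>
    norm_num [e11]

/-- **Few sets are degenerate.** -/
theorem bad2 (L : Cls) {ψ ψ' : ZI → ℝ} {q q' r : ZI} (h : Psi ψ q) (h' : Psi ψ' q')
    (h'' : Psi (fun a => ψ a * ψ' a) r) (c : ZMod 2) : BadH L (Nd2 (tq ψ) (tq ψ') c) := by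
  intro ε hε
  obtain ⟨X₁, h1⟩ := t_BAD L h (ε / 3) (by linarith)
  obtain ⟨X₂, h2⟩ := t_BAD L h' (ε / 3) (by linarith)
  obtain ⟨X₃, h3⟩ := t_BAD L h'' (ε / 3) (by linarith)
  refine ⟨max X₁ (max X₂ X₃), fun X hX => ?_⟩
  have g1 := h1 X ((le_max_left _ _).trans hX)
  have g2 := h2 X (((le_max_left _ _).trans (le_max_right _ _)).trans hX)
  have g3 := h3 X (((le_max_right _ _).trans (le_max_right _ _)).trans hX)
  have hsub : ((SS L X).filter fun S => S.card ≤ kk X ∧
      ¬ Nd2 (tq ψ) (tq ψ') c (sm (zz X) S) (la (zz X) S)) ⊆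
      (((SS L X).filter fun S => S.card ≤ kk X ∧ ¬ Nd nq (tq ψ) (sm (zz X) S) (la (zz X) S)) ∪
      ((SS L X).filter fun S => S.card ≤ kk X ∧ ¬ Nd nq (tq ψ') (sm (zz X) S) (la (zz X) S))) ∪
      ((SS L X).filter fun S => S.card ≤ kk X ∧
        ¬ Nd nq (tq fun a => ψ a * ψ' a) (sm (zz X) S) (la (zz X) S)) := by
    intro S hS
    rw [mem_filter] at hS
    obtain ⟨a1, a2, a3⟩ := hS
    rw [mem_union, mem_union, mem_filter, mem_filter, mem_filter]
    rcases bad_or a3 with h4 | h4 | h4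
    · exact Or.inl (Or.inl ⟨a1, a2, h4⟩)
    · exact Or.inl (Or.inr ⟨a1, a2, h4⟩)
    · refine Or.inr ⟨a1, a2, fun h5 => h4 ?_⟩
      refine (nd_congr fun π hπ => ?_).2 h5
      have hPP : PP π := (mem_SS.1 a1).1.1 π (mem_filter.1 hπ).1
      exact tq_mul h h' hPP.prm
  have g4 := (card_le_card hsub).trans ((card_union_le _ _).trans
    (Nat.add_le_add_right (card_union_le _ _) _))
  have g5 : (((SS L X).filter fun S => S.card ≤ kk X ∧
      ¬ Nd2 (tq ψ) (tq ψ') c (sm (zz X) S) (la (zz X) S)).card : ℝ) ≤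
      ((((SS L X).filter fun S => S.card ≤ kk X ∧
        ¬ Nd nq (tq ψ) (sm (zz X) S) (la (zz X) S)).card : ℝ) +
      (((SS L X).filter fun S => S.card ≤ kk X ∧
        ¬ Nd nq (tq ψ') (sm (zz X) S) (la (zz X) S)).card : ℝ)) +
      (((SS L X).filter fun S => S.card ≤ kk X ∧
        ¬ Nd nq (tq fun a => ψ a * ψ' a) (sm (zz X) S) (la (zz X) S)).card : ℝ) := by
    exact_mod_cast g4
  linarith

/-- **The proportion, in terms of the elements.** -/
theorem den2 (L : Cls) (hLo : Low L) {ψ ψ' : ZI → ℝ} {q q' r : ZI} (h : Psi ψ q) (h' : Psi ψ' q')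
    (h'' : Psi (fun a => ψ a * ψ' a) r) (c : ZMod 2) : Tendsto
    (fun X : ℕ => (((SB X).filter fun Δ => ClD L Δ ∧ Gd2 (tq ψ) (tq ψ') c (PD Δ)).card : ℝ) /
      (((SB X).filter (ClD L)).card : ℝ)) atTop (nhds c2) := by
  refine (t_DQ L (box2 _ _ c) (bad2 L h h' h'' c) hLo).congr fun X => ?_
  rw [← card_eq L X (Gd2 (tq ψ) (tq ψ') c)]
  have h := card_eq L X fun _ => True
  rw [filter_true] at h
  simp only [and_true] at h
  rw [← h]

end Pool.Agent.D0H45.QE
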